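import Pool.Agent.Helper44.GH.Stmts

/-! Module ABP1: pointwise inequalities for the inverse. -/

open Finset MeasureTheory Filter Topology Matrix
open scoped ENNReal ContDiff

namespace Pool.Agent.Helper44.GH

open Pool.Agent.Helper44.GF Pool.Agent.Helper44.GN

theorem abp1_form {n m : ℕ} (V : Matrix (Fin n) (Fin m) ℝ) (y : Fin n → ℝ)
    (w x : Fin m → ℝ) :
    w ⬝ᵥ (TT V V y) *ᵥ x = ∑ j, y j * ((V j ⬝ᵥ w) * (V j ⬝ᵥ x)) := by
  unfold TT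
  rw [← Matrix.mulVec_mulVec, ← Matrix.mulVec_mulVec, Matrix.dotProduct_mulVec,
    Matrix.vecMul_transpose]
  unfold dotProduct
  refine Finset.sum_congr rfl fun j _ => ?_
  rw [Matrix.mulVec_diagonal]
  show (V j ⬝ᵥ w) * (y j * (V j ⬝ᵥ x)) = _
  unfold dotProduct
  ring

theorem abp1_det {n m : ℕ} (V : Matrix (Fin n) (Fin m) ℝ) (y : Fin n → ℝ) (hy : y ∈ Og n)
    (hV : Function.Injective V.mulVec) : IsUnit (TT V V y).det := by
  rw [isUnit_iff_ne_zero]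
  intro h0
  obtain ⟨x, hx, hx0⟩ := Matrix.exists_mulVec_eq_zero_iff.2 h0
  have h1 := abp1_form V y x x
  rw [hx0, dotProduct_zero] at h1
  have h2 : ∀ j ∈ Finset.univ, y j * ((V j ⬝ᵥ x) * (V j ⬝ᵥ x)) = 0 :=
    (Finset.sum_eq_zero_iff_of_nonneg fun j _ =>
      mul_nonneg (hy j).le (mul_self_nonneg _)).1 h1.symm
  apply hx
  apply hV
  funext j
  rw [Matrix.mulVec_zero]
  have h3 := h2 j (Finset.mem_univ _)
  have h4 : (V j ⬝ᵥ x) * (V j ⬝ᵥ x) = 0 := by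
    rcases mul_eq_zero.1 h3 with h | h
    · exact absurd h (hy j).ne'
    · exact h
  exact mul_self_eq_zero.1 h4

theorem st_ABP1 : ST_ABP1 := by
  intro n m V y ρ hy hρ hN
  have hV : Function.Injective V.mulVec := by
    intro a b hab
    have h1 : TT V V ρ *ᵥ a = TT V V ρ *ᵥ b := by
      unfold TT
      rw [← Matrix.mulVec_mulVec, ← Matrix.mulVec_mulVec, ← Matrix.mulVec_mulVec,
        ← Matrix.mulVec_mulVec]
      have : V *ᵥ a = V *ᵥ b := hab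
      rw [this]
    rwa [hN, Matrix.one_mulVec, Matrix.one_mulVec] at h1
  refine ⟨hV, fun w => ?_⟩
  have hU := abp1_det V y hy hV
  set H := TT V V y with hH
  set x := H⁻¹ *ᵥ w with hx
  have hHx : H *ᵥ x = w := by
    rw [hx, Matrix.mulVec_mulVec, Matrix.mul_nonsing_inv _ hU, Matrix.one_mulVec]
  -- the quadratic form
  have hq : ∀ u v : Fin m → ℝ, u ⬝ᵥ H *ᵥ v = ∑ j, y j * ((V j ⬝ᵥ u) * (V j ⬝ᵥ v)) :=
    fun u v => abp1_form V y u v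
  have hxx : w ⬝ᵥ x = ∑ j, y j * (V j ⬝ᵥ x) ^ 2 := by
    rw [dotProduct_comm]
    conv_lhs => rw [← hHx]
    rw [hq]
    exact Finset.sum_congr rfl fun j _ => by ring
  constructor
  · -- w.x = sum ρ (v w)(v x)
    have h1 : w ⬝ᵥ x = ∑ j, ρ j * ((V j ⬝ᵥ w) * (V j ⬝ᵥ x)) := by
      rw [← abp1_form, hN, Matrix.one_mulVec]
    have h2 : w ⬝ᵥ x = 2 * (∑ j, ρ j * ((V j ⬝ᵥ w) * (V j ⬝ᵥ x)))
        - ∑ j, y j * (V j ⬝ᵥ x) ^ 2 := by
      rw [← h1, ← hxx]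
      ring
    rw [h2, Finset.mul_sum, ← Finset.sum_sub_distrib]
    refine Finset.sum_le_sum fun j _ => ?_
    have hyj := hy j
    have h3 : ρ j ^ 2 / y j * (V j ⬝ᵥ w) ^ 2 - (2 * (ρ j * ((V j ⬝ᵥ w) * (V j ⬝ᵥ x)))
        - y j * (V j ⬝ᵥ x) ^ 2) = (ρ j * (V j ⬝ᵥ w) - y j * (V j ⬝ᵥ x)) ^ 2 / y j := by
      field_simp
      ring
    have h4 : 0 ≤ (ρ j * (V j ⬝ᵥ w) - y j * (V j ⬝ᵥ x)) ^ 2 / y j := by positivity
    linarith
  · intro c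
    have h1 : 0 ≤ ∑ j, y j * (V j ⬝ᵥ (x - c • w)) ^ 2 :=
      Finset.sum_nonneg fun j _ => mul_nonneg (hy j).le (sq_nonneg _)
    have h2 : ∑ j, y j * (V j ⬝ᵥ (x - c • w)) ^ 2
        = ∑ j, y j * (V j ⬝ᵥ x) ^ 2 - 2 * c * (∑ j, y j * ((V j ⬝ᵥ w) * (V j ⬝ᵥ x)))
          + c ^ 2 * ∑ j, y j * (V j ⬝ᵥ w) ^ 2 := by
      rw [Finset.mul_sum, Finset.mul_sum, ← Finset.sum_sub_distrib, ← Finset.sum_add_distrib]
      refine Finset.sum_congr rfl fun j _ => ?_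
      rw [dotProduct_sub, dotProduct_smul, smul_eq_mul]
      ring
    have h3 : ∑ j, y j * ((V j ⬝ᵥ w) * (V j ⬝ᵥ x)) = w ⬝ᵥ w := by
      rw [← hq, hHx]
    rw [h2, h3, ← hxx] at h1
    linarith

end Pool.Agent.Helper44.GH
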