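import Pool.Agent.Helper52.GH.SGF

open Finset MeasureTheory Filter Topology Matrix
open scoped ENNReal ContDiff

namespace Pool.Agent.Helper44.GH

open Pool.Agent.Helper44.GF Pool.Agent.Helper44.GN

/-- The cross term vanishes. -/
theorem abp3_cross {n m : ℕ} (V Z : Matrix (Fin n) (Fin m) ℝ) (ρ : Fin n → ℝ)
    (hT : TT V Z ρ = 0) (A : Matrix (Fin m) (Fin m) ℝ) :
    ∑ i, ρ i * (V i ⬝ᵥ (A *ᵥ Z i)) = 0 := by
  have h1 : TT Z V ρ = 0 := by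
    rw [← SGF52.TT_swap V Z ρ, hT, Matrix.transpose_zero]
  have h2 : ∑ i, ρ i * (V i ⬝ᵥ (A *ᵥ Z i)) = Matrix.trace (A * TT Z V ρ) := by
    rw [SGF52.tt_eq, Matrix.mul_sum, Matrix.trace_sum]
    refine Finset.sum_congr rfl fun i _ => ?_
    rw [Matrix.mul_smul, Matrix.trace_smul, Matrix.mul_vecMulVec, Matrix.trace_vecMulVec,
      smul_eq_mul, dotProduct_comm]
  rw [h2, h1, Matrix.mul_zero, Matrix.trace_zero]

theorem st_ABP3 : ST_ABP3 := by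
  intro n m V Z y ρ hy hρ hV hT c
  obtain ⟨_, h2, _, _⟩ := st_SGF n m V Z hV y hy
  rw [h2]
  have key : ∀ i, 2 * c * (ρ i * (rr V Z y i ⬝ᵥ (TT V V y)⁻¹ *ᵥ Z i))
      - c ^ 2 * (ρ i ^ 2 / y i * (Z i ⬝ᵥ (TT V V y)⁻¹ *ᵥ Z i))
      ≤ y i * (rr V Z y i ⬝ᵥ (TT V V y)⁻¹ *ᵥ rr V Z y i) := by
    intro i
    have hyi : 0 < y i := hy i
    have h1 := SGF52.inv_nonneg V hV y hy (y i • rr V Z y i - (c * ρ i) • Z i)
    rw [Matrix.mulVec_sub, Matrix.mulVec_smul, Matrix.mulVec_smul, dotProduct_sub,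
      sub_dotProduct, sub_dotProduct, smul_dotProduct, smul_dotProduct, smul_dotProduct,
      smul_dotProduct, dotProduct_smul, dotProduct_smul, dotProduct_smul, dotProduct_smul,
      SGF52.inv_symm V y (Z i) (rr V Z y i)] at h1
    simp only [smul_eq_mul] at h1
    set q := rr V Z y i ⬝ᵥ (TT V V y)⁻¹ *ᵥ rr V Z y i with hq
    set k := rr V Z y i ⬝ᵥ (TT V V y)⁻¹ *ᵥ Z i with hk
    set z := Z i ⬝ᵥ (TT V V y)⁻¹ *ᵥ Z i with hz
    have h3 : 2 * c * (ρ i * k) - c ^ 2 * (ρ i ^ 2 / y i * z) =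
        (2 * c * (ρ i * k) * y i - c ^ 2 * (ρ i ^ 2 * z)) / y i := by
      field_simp
    rw [h3, div_le_iff₀ hyi]
    nlinarith [h1]
  have hsum := Finset.sum_le_sum fun i (_ : i ∈ (Finset.univ : Finset (Fin n))) => key i
  rw [Finset.sum_sub_distrib, ← Finset.mul_sum, ← Finset.mul_sum] at hsum
  have hcr : ∑ i, ρ i * (rr V Z y i ⬝ᵥ (TT V V y)⁻¹ *ᵥ Z i)
      = ∑ i, ρ i * (Z i ⬝ᵥ (TT V V y)⁻¹ *ᵥ Z i) := by
    have h5 := abp3_cross V Z ρ hT (BB V Z y * (TT V V y)⁻¹)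
    have h6 : ∀ i, ρ i * (rr V Z y i ⬝ᵥ (TT V V y)⁻¹ *ᵥ Z i)
        = ρ i * (Z i ⬝ᵥ (TT V V y)⁻¹ *ᵥ Z i)
          - ρ i * (V i ⬝ᵥ ((BB V Z y * (TT V V y)⁻¹) *ᵥ Z i)) := by
      intro i
      unfold rr
      rw [sub_dotProduct, mul_sub, Matrix.mulVec_transpose, ← Matrix.mulVec_mulVec,
        Matrix.dotProduct_mulVec (V i) (BB V Z y)]
    rw [Finset.sum_congr rfl fun i _ => h6 i, Finset.sum_sub_distrib, h5, sub_zero]
  rw [hcr] at hsum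
  exact hsum

end Pool.Agent.Helper44.GH
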