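import Pool.Agent.Helper44.GH.Stmts

/-! Module ABS: the abstract inequality. -/

open Finset MeasureTheory Filter Topology Matrix
open scoped ENNReal ContDiff

namespace Pool.Agent.Helper44.GH

open Pool.Agent.Helper44.GF Pool.Agent.Helper44.GN

theorem abs_ae {n : ℕ} {P : Measure (Fin n → ℝ)} {a b : ℝ} {ρ : Fin n → ℝ}
    (R : RB P a b ρ) : ∀ᵐ y ∂P, y ∈ Og n := by
  filter_upwards [R.bd] with y hy
  intro i
  exact lt_of_lt_of_le R.a0 (hy i).1

theorem abs_int {n : ℕ} {P : Measure (Fin n → ℝ)} {a b : ℝ} {ρ : Fin n → ℝ}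
    (R : RB P a b ρ) {F : (Fin n → ℝ) → ℝ} (hF : ContinuousOn F (Og n)) : Integrable F P := by
  haveI := R.pr
  have hK : IsCompact (Set.pi Set.univ fun _ : Fin n => Set.Icc a b) :=
    isCompact_univ_pi fun _ => isCompact_Icc
  have hsub : (Set.pi Set.univ fun _ : Fin n => Set.Icc a b) ⊆ Og n := by
    intro y hy i
    exact lt_of_lt_of_le R.a0 (hy i (Set.mem_univ _)).1
  have h1 : IntegrableOn F (Set.pi Set.univ fun _ : Fin n => Set.Icc a b) P :=
    (hF.mono hsub).integrableOn_compact hK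
  have h2 : P.restrict (Set.pi Set.univ fun _ : Fin n => Set.Icc a b) = P := by
    apply Measure.restrict_eq_self_of_ae_mem
    filter_upwards [R.bd] with y hy
    intro i _
    exact hy i
  unfold IntegrableOn at h1
  rwa [h2] at h1

theorem st_ABS (h0 : ST_ABS0) (hN : ST_ABN) (hI : ST_INV) (hC : ST_CNT) : ST_ABS := by
  intro n m P a b ρ V Z R hV hB hZ
  obtain ⟨C, hCd, hC1⟩ := hN n m V ρ R.r0 hV
  have hU : IsUnit C.det := isUnit_iff_ne_zero.2 hCd
  have hae : ∀ᵐ y ∂P, BB (V * C) (Z * C) y = C⁻¹ * BB V Z y * C ∧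
      sgm (V * C) (Z * C) y = sgm V Z y := by
    filter_upwards [abs_ae R] with y hy
    have h := (hI n m V Z hV y hy).2 C hCd
    exact ⟨h.1, h.2.1⟩
  have hInt : ∀ i j, Integrable (fun y => BB V Z y i j) P := fun i j =>
    abs_int R ((hC n m V Z hV).2.2.2.1 i j)
  have hB1 : ∀ i j, ∫ y, BB (V * C) (Z * C) y i j ∂P = 0 := by
    intro i j
    have h1 : ∫ y, BB (V * C) (Z * C) y i j ∂P
        = ∫ y, ∑ k, ∑ l, C⁻¹ i l * C k j * BB V Z y l k ∂P := by
      refine integral_congr_ae ?_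
      filter_upwards [hae] with y hy
      rw [hy.1, Matrix.mul_apply]
      refine Finset.sum_congr rfl fun k _ => ?_
      rw [Matrix.mul_apply, Finset.sum_mul]
      refine Finset.sum_congr rfl fun l _ => ?_
      ring
    rw [h1, integral_finset_sum _ fun k _ => integrable_finset_sum _ fun l _ =>
      (hInt l k).const_mul _]
    refine Finset.sum_eq_zero fun k _ => ?_
    rw [integral_finset_sum _ fun l _ => (hInt l k).const_mul _]
    refine Finset.sum_eq_zero fun l _ => ?_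
    rw [integral_const_mul, hB l k, mul_zero]
  have hZ1 : Z * C ≠ 0 := by
    intro h
    apply hZ
    have h2 : Z * C * C⁻¹ = 0 := by rw [h, Matrix.zero_mul]
    rwa [Matrix.mul_assoc, Matrix.mul_nonsing_inv _ hU, Matrix.mul_one] at h2
  have hT : ∀ᵐ y ∂P, Matrix.trace (BB (V * C) (Z * C) y) = Matrix.trace (BB V Z y) ∧
      Matrix.trace (BB (V * C) (Z * C) y * BB (V * C) (Z * C) y)
        = Matrix.trace (BB V Z y * BB V Z y) ∧
      sgm (V * C) (Z * C) y = sgm V Z y := by
    filter_upwards [hae] with y hy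
    refine ⟨?_, ?_, hy.2⟩
    · rw [hy.1, Matrix.trace_mul_comm, ← Matrix.mul_assoc, Matrix.mul_nonsing_inv _ hU,
        Matrix.one_mul]
    · rw [hy.1]
      have h1 : C⁻¹ * BB V Z y * C * (C⁻¹ * BB V Z y * C)
          = C⁻¹ * (BB V Z y * BB V Z y) * C := by
        simp only [Matrix.mul_assoc]
        congr 2
        rw [← Matrix.mul_assoc C C⁻¹, Matrix.mul_nonsing_inv _ hU, Matrix.one_mul]
      rw [h1, Matrix.trace_mul_comm, ← Matrix.mul_assoc, Matrix.mul_nonsing_inv _ hU,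
        Matrix.one_mul]
  have hmain := h0 n m P a b ρ (V * C) (Z * C) R hC1 hB1 hZ1
  have e1 : ∫ y, (Matrix.trace (BB (V * C) (Z * C) y) ^ 2 + sgm (V * C) (Z * C) y) ∂P
      = ∫ y, (Matrix.trace (BB V Z y) ^ 2 + sgm V Z y) ∂P := by
    refine integral_congr_ae ?_
    filter_upwards [hT] with y hy
    rw [hy.1, hy.2.2]
  have e2 : ∫ y, (Matrix.trace (BB (V * C) (Z * C) y * BB (V * C) (Z * C) y)
        - Matrix.trace (BB (V * C) (Z * C) y) ^ 2) ∂P
      = ∫ y, (Matrix.trace (BB V Z y * BB V Z y) - Matrix.trace (BB V Z y) ^ 2) ∂P := by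
    refine integral_congr_ae ?_
    filter_upwards [hT] with y hy
    rw [hy.1, hy.2.1]
  rw [e1, e2] at hmain
  exact hmain

end Pool.Agent.Helper44.GH
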