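import Pool.Agent.Helper44.GF.All
import Pool.Agent.Helper44.GN.All
import Pool.Agent.Helper11.GH.XF
import Pool.Agent.Helper2.GH.PE
import Pool.Agent.Helper20.GH.INV
import Pool.Agent.Helper22.GH.ABN
import Pool.Agent.Helper22.GH.CRT
import Pool.Agent.Helper22.GH.MAIN
import Pool.Agent.Helper22.GH.MMP
import Pool.Agent.Helper22.GH.VAR
import Pool.Agent.Helper24.GH.MPL
import Pool.Agent.Helper25.GH.GL1
import Pool.Agent.Helper30.GH.ABP2
import Pool.Agent.Helper35.GH.GL3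
import Pool.Agent.Helper38.GH.LCF
import Pool.Agent.Helper4.GH.MOM
import Pool.Agent.Helper42.GH.BES
import Pool.Agent.Helper42.GH.GSP
import Pool.Agent.Helper44.GH.ABP1
import Pool.Agent.Helper44.GH.ABP3
import Pool.Agent.Helper44.GH.ABS
import Pool.Agent.Helper44.GH.BPV
import Pool.Agent.Helper45.GH.ABE
import Pool.Agent.Helper48.GH.CTJ
import Pool.Agent.Helper49.GH.LAPU
import Pool.Agent.Helper5.GH.CNT
import Pool.Agent.Helper5.GH.CVB
import Pool.Agent.Helper5.GH.DMS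
import Pool.Agent.Helper51.GH.GAM
import Pool.Agent.Helper51.GH.GLZ
import Pool.Agent.Helper52.GH.SGF
import Pool.Agent.Helper57.GH.BL
import Pool.Agent.Helper61.GH.RLZ
import Pool.Agent.Helper63.GH.BER
import Pool.Agent.Helper67.GH.FIS
import Pool.Agent.Helper7.GH.MP1
import Pool.Agent.Helper71.GH.CMP
import Pool.Agent.Helper71.GH.GI3
import Pool.Agent.Helper72.GH.ES
import Pool.Agent.Helper77.GH.DQ
import Pool.Agent.Helper78.GH.SLV
import Pool.Agent.Helper79.GH.GPO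
import Pool.Agent.Helper8.GH.LOC
import Pool.Agent.Helper8.GH.ROWB
import Pool.Agent.Helper83.GH.GSM
import Pool.Agent.Helper84.GH.FST
import Pool.Agent.Helper85.GH.MP2
import Pool.Agent.Helper88.GH.PM
import Pool.Agent.Helper88.GH.VD
import Pool.Agent.Helper90.GH.ABS0
import Pool.Agent.Helper91.GH.CTR
import Pool.Agent.Helper94.GH.DIR
import Pool.Agent.Helper94.GH.H1I
import Pool.Agent.Helper97.GH.KER
import Pool.Agent.Helper97.GH.MAF
import Pool.Agent.Helper97.GH.UPD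

/-! Assembly of the face inequality for `5/3 ≤ p < 2`. -/

namespace Pool.Agent.Helper44.GH

open Pool.Agent.Helper24.GH Pool.Agent.Helper2.GH Pool.Agent.Helper8.GH

theorem all_ES : ST_ES := st_ES (Pool.Agent.Helper44.GF.st_BOCH Pool.Agent.Helper44.GF.st_GNZ)
  (Pool.Agent.Helper44.GF.st_GAP Pool.Agent.Helper44.GF.st_GNZ)

theorem all_GPO : ST_GPO := st_GPO st_SLV

theorem all_BES : ST_BES := st_BES all_GPO all_ES

theorem all_VD : ST_VD := st_VD PE st_SLV all_GPO all_ES st_BL st_XF all_BES st_UPD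

theorem all_DIR : ST_DIR := st_DIR st_UPD st_SGF st_H1I Pool.Agent.Helper44.GF.st_GNZ

theorem all_VAR : ST_VAR := st_VAR all_VD all_DIR st_SGF st_UPD

theorem all_GL1 : ST_GL1 := st_GL1 st_UPD st_GI3 st_LAPU

theorem all_GL3 : ST_GL3 := st_GL3 st_UPD st_GI3 st_LAPU

theorem all_MAF : ST_MAF := st_MAF st_UPD st_SGF

theorem all_PM : ST_PM := st_PM PE st_SLV st_CNT all_MAF st_UPD st_GI3 all_GL3

theorem all_LCF : ST_LCF := st_LCF st_UPD PE st_SLV all_GPO all_GL1

theorem all_MOM : ST_MOM := st_MOM st_UPD st_BER all_LCF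

theorem all_ROWB : ST_ROWB := st_ROWB all_PM all_MOM st_CTR st_GAM st_SLV

theorem all_ABE : ST_ABE := st_ABE st_ABP1

theorem all_ABS0 : ST_ABS0 := st_ABS0 st_ABP1 st_ABP2 st_ABP3 all_ABE st_INV st_CNT

theorem all_ABS : ST_ABS := st_ABS all_ABS0 st_ABN st_INV st_CNT

theorem all_LOC : ST_LOC := st_LOC all_ABS all_ROWB all_MAF st_CNT all_VAR

theorem all_MPL : ST_MPL := st_MPL st_MP1 st_MP2

theorem all_DMS : ST_DMS := st_DMS st_DQ st_CNT

theorem all_BPV : ST_BPV := st_BPV st_CNT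

theorem all_CRT : ST_CRT := st_CRT all_BPV

theorem all_GSP : ST_GSP := st_GSP all_DMS st_CTJ all_BPV

theorem all_GSM : ST_GSM := st_GSM all_DMS st_CTJ

theorem all_CMP : ST_CMP := st_CMP st_CTJ st_CNT Pool.Agent.Helper44.GN.all_RHO Pool.Agent.Helper44.GN.all_FCT

theorem all_KER : ST_KER := st_KER all_LOC all_MPL all_GSP all_GSM all_CMP all_CRT all_BPV st_INV

theorem all_CVB : ST_CVB := st_CVB Pool.Agent.Helper44.GN.st_EXT Pool.Agent.Helper44.GN.st_MAPF
  (Pool.Agent.Helper44.GF.st_COVER (Pool.Agent.Helper44.GF.st_CF Pool.Agent.Helper44.GF.st_TFORM))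

theorem all_FIS : ST_FIS := st_FIS all_KER all_CVB all_BPV Pool.Agent.Helper44.GF.st_LINK

theorem all_RLZ : ST_RLZ := st_RLZ Pool.Agent.Helper44.GF.st_LR

theorem all_FST : ST_FST := st_FST Pool.Agent.Helper44.GF.st_GH1 Pool.Agent.Helper44.GN.st_FLM all_FIS st_GLZ all_RLZ st_MMP

theorem all_MAIN : ST_MAIN := st_MAIN
  (Pool.Agent.Helper44.GF.st_HFACE (Pool.Agent.Helper44.GF.st_HBALL Pool.Agent.Helper44.GF.st_ISOD)) all_FST

end Pool.Agent.Helper44.GH
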