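import Pool.Agent.Helper44.GN.Defs

/-!
# Face inequality for polyhedral cycles in `ℓ^p_n`, `5/3 ≤ p < 2`, all dimensions (MP_d210aa_gt)

Definitions.
-/

open Finset MeasureTheory Filter Topology Matrix
open scoped ENNReal ContDiff

namespace Pool.Agent.Helper44.GH

open Pool.Agent.Helper44.GF Pool.Agent.Helper44.GN

/-! ## A. The exponent -/

section Scalar

variable {Y : Type} [Fintype Y]

/-- The probability of the atom `y` at the level `u`. -/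
noncomputable def bz (r z : Y → ℝ) (y : Y) (u : ℝ) : ℝ :=
  z y * Real.exp (-(u * r y)) / (1 + z y * Real.exp (-(u * r y)))

/-- The derivative of the exponent `lam`. -/
noncomputable def ld (δ : ℝ) (r z : Y → ℝ) (u : ℝ) : ℝ := δ + ∑ y, r y * bz r z y u

/-- Minus the second derivative of the exponent `lam`. -/
noncomputable def ldd (r z : Y → ℝ) (u : ℝ) : ℝ := ∑ y, r y ^ 2 * bz r z y u * (1 - bz r z y u)

/-- An upper bound of `ldd`. -/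
noncomputable def tz (r z : Y → ℝ) (u : ℝ) : ℝ := ∑ y, z y * r y ^ 2 * Real.exp (-(u * r y))

/-- The function `lam (t ^ 2)`. -/
noncomputable def gg (δ : ℝ) (r z : Y → ℝ) (t : ℝ) : ℝ := lam δ r z (t ^ 2)

/-- The second derivative of `gg`. -/
noncomputable def Dg (δ : ℝ) (r z : Y → ℝ) (t : ℝ) : ℝ :=
  2 * ld δ r z (t ^ 2) - 4 * t ^ 2 * ldd r z (t ^ 2)

/-- The standing hypotheses on the parameters. -/
structure MD (s ζ δ : ℝ) (r z : Y → ℝ) : Prop where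
  s0 : 0 < s
  k0 : 0 < ζ
  k1 : ζ ≤ 1 / 1000
  d0 : 0 < δ
  r0 : ∀ y, 0 < r y
  z0 : ∀ y, 0 < z y
  z1 : ∀ y, z y ≤ ζ
  h1 : H1 δ r z s
  hs : (1 + ζ) * s ≤ 1 / 6

end Scalar

/-! ## B. Linear algebra -/

section LinAlg

variable {n m : ℕ}

/-- The matrix `H⁻¹ Vᵀ D_y` with `H = Vᵀ D_y V`. -/
noncomputable def BD (V : Matrix (Fin n) (Fin m) ℝ) (y : Fin n → ℝ) :
    Matrix (Fin m) (Fin n) ℝ := (TT V V y)⁻¹ * Vᵀ * Matrix.diagonal y

/-- The matrix `H⁻¹ Vᵀ D_y Z`. -/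
noncomputable def BB (V Z : Matrix (Fin n) (Fin m) ℝ) (y : Fin n → ℝ) :
    Matrix (Fin m) (Fin m) ℝ := (TT V V y)⁻¹ * TT V Z y

/-- The trace of `H⁻¹` times the residual matrix. -/
noncomputable def sgm (V Z : Matrix (Fin n) (Fin m) ℝ) (y : Fin n → ℝ) : ℝ :=
  Matrix.trace ((TT V V y)⁻¹ * (TT Z Z y - (BB V Z y)ᵀ * TT V V y * BB V Z y))

/-- The vector `H⁻¹ v_i`. -/
noncomputable def uu (V : Matrix (Fin n) (Fin m) ℝ) (y : Fin n → ℝ) (i : Fin n) : Fin m → ℝ :=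
  (TT V V y)⁻¹ *ᵥ V i

/-- The number `v_i · H⁻¹ v_i`. -/
noncomputable def hh (V : Matrix (Fin n) (Fin m) ℝ) (y : Fin n → ℝ) (i : Fin n) : ℝ :=
  V i ⬝ᵥ uu V y i

/-- The residual vector `z_i - Bᵀ v_i`. -/
noncomputable def rr (V Z : Matrix (Fin n) (Fin m) ℝ) (y : Fin n → ℝ) (i : Fin n) : Fin m → ℝ :=
  Z i - (BB V Z y)ᵀ *ᵥ V i

/-- The number `H⁻¹ v_i · (z_i - Bᵀ v_i)`. -/
noncomputable def ka (V Z : Matrix (Fin n) (Fin m) ℝ) (y : Fin n → ℝ) (i : Fin n) : ℝ :=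
  uu V y i ⬝ᵥ rr V Z y i

/-- The function `F` is affine in each variable. -/
def MA {n : ℕ} (F : (Fin n → ℝ) → ℝ) : Prop :=
  ∀ y ∈ Og n, ∀ i : Fin n, ∃ c : ℝ, ∀ s : ℝ, 0 ≤ s →
    F (Function.update y i (y i + s)) = F y + c * s

end LinAlg

/-! ## C. The finite model -/

section Model

variable {n m : ℕ} {Y : Type} [Fintype Y] [DecidableEq Y]

/-- The product of the activities. -/
def zw (z : Y → ℝ) (η : Finset (Fin n × Y)) : ℝ := ∏ x ∈ η, z x.2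

/-- The weight of a configuration. -/
noncomputable def W1 (V : Matrix (Fin n) (Fin m) ℝ) (δ : ℝ) (r z : Y → ℝ)
    (η : Finset (Fin n × Y)) : ℝ := zw z η * (qf V (tau δ r η)) ^ (-(1 / 2) : ℝ)

/-- The sum of the weights. -/
noncomputable def MS (V : Matrix (Fin n) (Fin m) ℝ) (δ : ℝ) (r z : Y → ℝ) : ℝ :=
  ∑ η : Finset (Fin n × Y), W1 V δ r z η

/-- The expectation of a function of `tau`. -/
noncomputable def EX (V : Matrix (Fin n) (Fin m) ℝ) (δ : ℝ) (r z : Y → ℝ)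
    (F : (Fin n → ℝ) → ℝ) : ℝ :=
  (∑ η : Finset (Fin n × Y), W1 V δ r z η * F (tau δ r η)) / MS V δ r z

/-- The sum over the configurations with the weights of the product measure. -/
noncomputable def Zy (δ : ℝ) (r z : Y → ℝ) (F : Finset (Fin n × Y) → ℝ) (y : Fin n → ℝ) : ℝ :=
  ∑ η : Finset (Fin n × Y), zw z η * Real.exp (-∑ i, tau δ r η i * y i ^ 2) * F η

/-- The expectation with respect to the product measure. -/
noncomputable def EY (δ : ℝ) (r z : Y → ℝ) (F : Finset (Fin n × Y) → ℝ) (y : Fin n → ℝ) : ℝ :=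
  Zy δ r z F y / Zy δ r z (fun _ => 1) y

/-- The covariance with `tau i`. -/
noncomputable def cy (δ : ℝ) (r z : Y → ℝ) (F : Finset (Fin n × Y) → ℝ) (y : Fin n → ℝ)
    (i : Fin n) : ℝ :=
  EY δ r z (fun η => F η * tau δ r η i) y - EY δ r z F y * EY δ r z (fun η => tau δ r η i) y

/-- The variance. -/
noncomputable def vy (δ : ℝ) (r z : Y → ℝ) (F : Finset (Fin n × Y) → ℝ) (y : Fin n → ℝ) : ℝ :=
  EY δ r z (fun η => F η ^ 2) y - EY δ r z F y ^ 2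

/-- The Gaussian integral. -/
noncomputable def G0 (m : ℕ) : ℝ := ∫ x : Fin m → ℝ, Real.exp (-∑ j, x j ^ 2)

/-- The sum of the squares over three replicas. -/
def nq (V : Matrix (Fin n) (Fin m) ℝ) (X : Fin 3 → Fin m → ℝ) (i : Fin n) : ℝ :=
  ∑ k, (V.mulVec (X k)) i ^ 2

/-- The density of `sqrt (nq V X i)`. -/
noncomputable def p3 (V : Matrix (Fin n) (Fin m) ℝ) (δ : ℝ) (r z : Y → ℝ) (i : Fin n)
    (t : ℝ) : ℝ :=
  EX V δ r z (fun y => 4 / √Real.pi * (hh V y i) ^ (-(3 / 2) : ℝ) * t ^ 2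
    * Real.exp (-(t ^ 2 / hh V y i)))

/-- The density of `v_i · x`. -/
noncomputable def fd (V : Matrix (Fin n) (Fin m) ℝ) (δ : ℝ) (r z : Y → ℝ) (i : Fin n)
    (t : ℝ) : ℝ :=
  EX V δ r z (fun y => 1 / √Real.pi * (hh V y i) ^ (-(1 / 2) : ℝ)
    * Real.exp (-(t ^ 2 / hh V y i)))

/-- The moments of `sqrt (nq V X i)`. -/
noncomputable def mo (V : Matrix (Fin n) (Fin m) ℝ) (δ : ℝ) (r z : Y → ℝ) (i : Fin n)
    (q : ℝ) : ℝ := ∫ t in Set.Ioi (0 : ℝ), t ^ q * p3 V δ r z i t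

/-- Minus the first derivative of `MS`. -/
noncomputable def M1 (V Z : Matrix (Fin n) (Fin m) ℝ) (δ : ℝ) (r z : Y → ℝ) : ℝ :=
  -∑ η : Finset (Fin n × Y), W1 V δ r z η * Matrix.trace (BB V Z (tau δ r η))

/-- The second derivative of `MS`. -/
noncomputable def M2 (V Z : Matrix (Fin n) (Fin m) ℝ) (δ : ℝ) (r z : Y → ℝ) : ℝ :=
  ∑ η : Finset (Fin n × Y), W1 V δ r z η * (Matrix.trace (BB V Z (tau δ r η)) ^ 2
    + Matrix.trace (BB V Z (tau δ r η) * BB V Z (tau δ r η)) - sgm V Z (tau δ r η))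

/-- The expectation of `BD`. -/
noncomputable def Bp (V : Matrix (Fin n) (Fin m) ℝ) (δ : ℝ) (r z : Y → ℝ) :
    Matrix (Fin m) (Fin n) ℝ := Matrix.of fun a i => EX V δ r z (fun y => BD V y a i)

end Model

/-! ## D. Variance inequality -/

/-- The hypotheses of the variance inequality for `exp (-∑ g ((V x)_i))`. -/
structure BH {n : ℕ} (g D : ℝ → ℝ) (c L C : ℝ) (f : (Fin n → ℝ) → ℝ)
    (w : Fin n → (Fin n → ℝ) → ℝ) : Prop where
  gc : Continuous g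
  Dc : Continuous D
  fc : Continuous f
  wc : ∀ i, Continuous (w i)
  c0 : 0 < c
  L0 : 0 ≤ L
  C0 : 0 ≤ C
  Dl : ∀ t, c ≤ D t
  gl : ∀ t, c / 4 * t ^ 2 ≤ g t
  g1 : ∀ t k, c * k ^ 2 ≤ g (t + k) + g (t - k) - 2 * g t
  g2 : ∀ t k, D t * k ^ 2 - L * |k| ^ 3 ≤ g (t + k) + g (t - k) - 2 * g t
  f1 : ∀ y, |f y| ≤ C
  w1 : ∀ i y, |w i y| ≤ C
  tay : ∀ y k : Fin n → ℝ, |f (y + k) - f y - ∑ i, w i y * k i| ≤ C * ∑ i, k i ^ 2

/-- Bounds on the marginals of a probability measure on the positive orthant. -/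
structure RB {n : ℕ} (P : Measure (Fin n → ℝ)) (a b : ℝ) (ρ : Fin n → ℝ) : Prop where
  pr : IsProbabilityMeasure P
  a0 : 0 < a
  bd : ∀ᵐ y ∂P, ∀ i, a ≤ y i ∧ y i ≤ b
  r0 : ρ ∈ Og n
  m1 : ∀ i, ∫ y, (y i)⁻¹ ∂P = (ρ i)⁻¹
  p1 : ∀ i, ∫ y, y i ∂P ≤ 1076 / 1000 * ρ i
  m2 : ∀ i, ∫ y, ((y i)⁻¹) ^ 2 ∂P ≤ 1075 / 1000 * ((ρ i)⁻¹) ^ 2
  p2 : ∀ i, ∫ y, (y i) ^ 2 ∂P ≤ 128 / 100 * (ρ i) ^ 2

/-! ## E. Critical points -/

/-- A strict local maximum. -/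
def SLM {E : Type} [NormedAddCommGroup E] (G : E → ℝ) (w : E) : Prop :=
  ∃ r : ℝ, 0 < r ∧ ∀ v, v ≠ w → ‖v - w‖ < r → G v < G w

/-- A point of increase. -/
def SLP {E : Type} [NormedAddCommGroup E] [NormedSpace ℝ E] (G : E → ℝ) (w : E) : Prop :=
  ∃ (e : E) (r c : ℝ), 0 < r ∧ 0 < c ∧
    ∀ v, ‖v - w‖ < r → ∀ t : ℝ, 0 ≤ t → t ≤ r → G v + c * t ≤ G (v + t • e)

/-- The matrices `z` with `B z = 0`. -/
def KB {n m : ℕ} (B : Matrix (Fin m) (Fin n) ℝ) : Submodule ℝ (Fin n → Fin m → ℝ) where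
  carrier := {z | B * Matrix.of z = 0}
  add_mem' := by
    intro a b ha hb
    simp only [Set.mem_ofPred_eq] at ha hb ⊢
    rw [← Matrix.of_add_of, Matrix.mul_add, ha, hb, add_zero]
  zero_mem' := by
    simp only [Set.mem_ofPred_eq, Matrix.of_zero, Matrix.mul_zero]
  smul_mem' := by
    intro c a ha
    simp only [Set.mem_ofPred_eq] at ha ⊢
    rw [← Matrix.smul_of, Matrix.mul_smul, ha, smul_zero]

/-- The function on the affine space `V + KB B`. -/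
noncomputable def GB {n m : ℕ} {Y : Type} [Fintype Y] [DecidableEq Y]
    (B : Matrix (Fin m) (Fin n) ℝ) (V : Matrix (Fin n) (Fin m) ℝ) (δ : ℝ) (r z : Y → ℝ)
    (w : KB B) : ℝ := MS (V + Matrix.of (w : Fin n → Fin m → ℝ)) δ r z

end Pool.Agent.Helper44.GH
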