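import Pool.Agent.Helper44.GH.Defs

/-!
# Face inequality for polyhedral cycles in `ℓ^p_n`, `5/3 ≤ p < 2`, all dimensions (MP_d210aa_gt)

The statements of all modules.
-/

open Finset MeasureTheory Filter Topology Matrix
open scoped ENNReal ContDiff

namespace Pool.Agent.Helper44.GH

open Pool.Agent.Helper44.GF Pool.Agent.Helper44.GN

/-! ## A. Linear algebra -/

/-- The update formulas. -/
def ST_UPD : Prop :=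
  ∀ (n m : ℕ) (V Z : Matrix (Fin n) (Fin m) ℝ), Function.Injective V.mulVec → ∀ y ∈ Og n,
    ∀ (i : Fin n) (s : ℝ), 0 ≤ s →
    Function.update y i (y i + s) ∈ Og n ∧ 0 < qf V y ∧ 0 ≤ hh V y i ∧
    (hh V y i = 0 → V i = 0) ∧
    qf V (Function.update y i (y i + s)) = qf V y * (1 + s * hh V y i) ∧
    (TT V V (Function.update y i (y i + s)))⁻¹
      = (TT V V y)⁻¹ - (s / (1 + s * hh V y i)) • Matrix.vecMulVec (uu V y i) (uu V y i) ∧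
    BB V Z (Function.update y i (y i + s))
      = BB V Z y + (s / (1 + s * hh V y i)) • Matrix.vecMulVec (uu V y i) (rr V Z y i) ∧
    hh V (Function.update y i (y i + s)) i = hh V y i / (1 + s * hh V y i) ∧
    ka V Z (Function.update y i (y i + s)) i = ka V Z y i / (1 + s * hh V y i) ^ 2

/-- The formulas for `sgm`. -/
def ST_SGF : Prop :=
  ∀ (n m : ℕ) (V Z : Matrix (Fin n) (Fin m) ℝ), Function.Injective V.mulVec → ∀ y ∈ Og n,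
    TT Z Z y - (BB V Z y)ᵀ * TT V V y * BB V Z y
      = ∑ i, y i • Matrix.vecMulVec (rr V Z y i) (rr V Z y i) ∧
    sgm V Z y = ∑ i, y i * (rr V Z y i ⬝ᵥ (TT V V y)⁻¹ *ᵥ rr V Z y i) ∧
    ∑ i, y i * (ka V Z y i ^ 2 / hh V y i) ≤ sgm V Z y ∧ 0 ≤ sgm V Z y

/-- The multi-affine functions. -/
def ST_MAF : Prop :=
  ∀ (n m : ℕ) (V Z : Matrix (Fin n) (Fin m) ℝ), Function.Injective V.mulVec →
    MA (fun y => qf V y) ∧ (∀ a b, MA (fun y => qf V y * BB V Z y a b)) ∧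
    MA (fun y => qf V y
      * (Matrix.trace (BB V Z y * BB V Z y) - Matrix.trace (BB V Z y) ^ 2)) ∧
    MA (fun y => qf V y * (Matrix.trace (BB V Z y) ^ 2 + sgm V Z y))

/-- Continuity. -/
def ST_CNT : Prop :=
  ∀ (n m : ℕ) (V Z : Matrix (Fin n) (Fin m) ℝ), Function.Injective V.mulVec →
    (∀ y ∈ Og n, 0 < qf V y) ∧ ContinuousOn (fun y => qf V y) (Og n) ∧
    (∀ a b, ContinuousOn (fun y => (TT V V y)⁻¹ a b) (Og n)) ∧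
    (∀ a b, ContinuousOn (fun y => BB V Z y a b) (Og n)) ∧
    ContinuousOn (fun y => sgm V Z y) (Og n)

/-- Invariance. -/
def ST_INV : Prop :=
  ∀ (n m : ℕ) (V Z : Matrix (Fin n) (Fin m) ℝ), Function.Injective V.mulVec → ∀ y ∈ Og n,
    (∀ N : Matrix (Fin m) (Fin m) ℝ, BB V (Z + V * N) y = BB V Z y + N ∧
      sgm V (Z + V * N) y = sgm V Z y) ∧
    (∀ C : Matrix (Fin m) (Fin m) ℝ, C.det ≠ 0 → BB (V * C) (Z * C) y = C⁻¹ * BB V Z y * C ∧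
      sgm (V * C) (Z * C) y = sgm V Z y ∧ qf (V * C) y = C.det ^ 2 * qf V y)

/-! ## B. The exponent -/

/-- The expectation of a multi-affine function. -/
def ST_PE : Prop :=
  ∀ (n : ℕ) (Y : Type) [Fintype Y] [DecidableEq Y] (δ : ℝ) (r z : Y → ℝ), 0 < δ →
    (∀ y, 0 < r y) → (∀ y, 0 < z y) → ∀ F : (Fin n → ℝ) → ℝ, MA F → ∀ t : Fin n → ℝ,
    ∑ η : Finset (Fin n × Y), zw z η * Real.exp (-∑ i, tau δ r η i * t i) * F (tau δ r η)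
      = (∏ y, (1 + z y)) ^ n * Real.exp (-∑ i, lam δ r z (t i))
        * F (fun i => ld δ r z (t i))

/-- The derivatives of the exponent. -/
def ST_SLV : Prop :=
  ∀ (Y : Type) [Fintype Y] (s ζ δ : ℝ) (r z : Y → ℝ), MD s ζ δ r z → ∀ u : ℝ, 0 ≤ u →
    HasDerivAt (lam δ r z) (ld δ r z u) u ∧ HasDerivAt (ld δ r z) (-ldd r z u) u ∧
    δ ≤ ld δ r z u ∧ ld δ r z u ≤ ld δ r z 0 ∧ 0 ≤ ldd r z u ∧ ldd r z u ≤ tz r z u ∧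
    u * tz r z u ≤ 1 / 6 * ld δ r z u ∧ δ * u ≤ lam δ r z u ∧
    (∀ v, u ≤ v → ld δ r z v ≤ ld δ r z u) ∧
    (∀ v, u ≤ v → u ^ (1 / 3 : ℝ) * ld δ r z (u ^ 2) ≤ v ^ (1 / 3 : ℝ) * ld δ r z (v ^ 2))

/-- The function `lam (t ^ 2)`. -/
def ST_GPO : Prop :=
  ∀ (Y : Type) [Fintype Y] (s ζ δ : ℝ) (r z : Y → ℝ), MD s ζ δ r z →
    Continuous (gg δ r z) ∧ Continuous (Dg δ r z) ∧ (∀ t, 4 / 3 * δ ≤ Dg δ r z t) ∧
    (∀ t, 4 * t ^ 2 * tz r z (t ^ 2) ≤ 1 / 2 * Dg δ r z t) ∧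
    (∀ t, δ * t ^ 2 ≤ gg δ r z t) ∧
    (∀ t k, 4 / 3 * δ * k ^ 2 ≤ gg δ r z (t + k) + gg δ r z (t - k) - 2 * gg δ r z t) ∧
    ∃ L : ℝ, 0 ≤ L ∧ ∀ t k,
      Dg δ r z t * k ^ 2 - L * |k| ^ 3 ≤ gg δ r z (t + k) + gg δ r z (t - k) - 2 * gg δ r z t

/-! ## C. The variance inequality -/

/-- The Efron-Stein inequality for the product measure. -/
def ST_ES : Prop :=
  ∀ (n : ℕ) (Y : Type) [Fintype Y] [DecidableEq Y] (δ : ℝ) (r z : Y → ℝ), 0 < δ →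
    (∀ y, 0 < r y) → (∀ y, 0 < z y) → ∀ (F : Finset (Fin n × Y) → ℝ) (y : Fin n → ℝ),
    vy δ r z F y ≤ EY δ r z (fun η => ∑ x ∈ ηᶜ,
      z x.2 * Real.exp (-(r x.2 * y x.1 ^ 2)) * dd F η x ^ 2) y ∧
    ∀ l : Fin n → ℝ, (∑ i, l i * cy δ r z F y i) ^ 2
      ≤ vy δ r z F y * ∑ i, l i ^ 2 * tz r z (y i ^ 2)

/-- The Brascamp-Lieb inequality. -/
def ST_BL : Prop :=
  ∀ (n m : ℕ) (V : Matrix (Fin n) (Fin m) ℝ) (g D : ℝ → ℝ) (c L C : ℝ)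
    (f : (Fin n → ℝ) → ℝ) (w : Fin n → (Fin n → ℝ) → ℝ), Function.Injective V.mulVec →
    BH g D c L C f w →
    (∫ x : Fin m → ℝ, Real.exp (-∑ i, g (V.mulVec x i)))
        * (∫ x : Fin m → ℝ, f (V.mulVec x) ^ 2 * Real.exp (-∑ i, g (V.mulVec x i)))
      - (∫ x : Fin m → ℝ, f (V.mulVec x) * Real.exp (-∑ i, g (V.mulVec x i))) ^ 2
    ≤ (∫ x : Fin m → ℝ, Real.exp (-∑ i, g (V.mulVec x i)))
        * ∫ x : Fin m → ℝ, (∑ i, w i (V.mulVec x) ^ 2 / D (V.mulVec x i))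
          * Real.exp (-∑ i, g (V.mulVec x i))

/-- The conditional expectation is a regular function. -/
def ST_XF : Prop :=
  ∀ (n : ℕ) (Y : Type) [Fintype Y] [DecidableEq Y] (s ζ δ : ℝ) (r z : Y → ℝ),
    MD s ζ δ r z → ∀ F : Finset (Fin n × Y) → ℝ,
    Continuous (EY δ r z F) ∧ (∀ i, Continuous fun y => -(2 * y i * cy δ r z F y i)) ∧
    ∃ C : ℝ, 0 ≤ C ∧ (∀ y, |EY δ r z F y| ≤ C) ∧
      (∀ i (y : Fin n → ℝ), |-(2 * y i * cy δ r z F y i)| ≤ C) ∧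
      ∀ y k : Fin n → ℝ, |EY δ r z F (y + k) - EY δ r z F y
        - ∑ i, -(2 * y i * cy δ r z F y i) * k i| ≤ C * ∑ i, k i ^ 2

/-- The bound of the gradient term. -/
def ST_BES : Prop :=
  ∀ (n : ℕ) (Y : Type) [Fintype Y] [DecidableEq Y] (s ζ δ : ℝ) (r z : Y → ℝ),
    MD s ζ δ r z → ∀ (F : Finset (Fin n × Y) → ℝ) (y : Fin n → ℝ),
    0 ≤ vy δ r z F y ∧
    ∑ i, (-(2 * y i * cy δ r z F y i)) ^ 2 / Dg δ r z (y i) ≤ 1 / 2 * vy δ r z F y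

/-- The variance inequality. -/
def ST_VD : Prop :=
  ∀ (n m : ℕ) (Y : Type) [Fintype Y] [DecidableEq Y] (s ζ δ : ℝ) (r z : Y → ℝ)
    (V : Matrix (Fin n) (Fin m) ℝ), MD s ζ δ r z → Function.Injective V.mulVec →
    ∀ F : Finset (Fin n × Y) → ℝ,
    MS V δ r z * (∑ η, W1 V δ r z η * F η ^ 2) - (∑ η, W1 V δ r z η * F η) ^ 2
      ≤ 3 / 2 * MS V δ r z * ∑ η, W1 V δ r z η * ∑ x ∈ ηᶜ,
          z x.2 * (1 + r x.2 * hh V (tau δ r η) x.1) ^ (-(1 / 2) : ℝ) * dd F η x ^ 2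

/-- The integrated form of `H1`. -/
def ST_H1I : Prop :=
  ∀ (Y : Type) [Fintype Y] (s ζ δ : ℝ) (r z : Y → ℝ), MD s ζ δ r z → ∀ h : ℝ, 0 ≤ h →
    h * ∑ y, z y * r y ^ 2 * (1 + r y * h) ^ (-(5 / 2) : ℝ)
      ≤ 15 / 112 * (δ + ∑ y, z y * r y * (1 + r y * h) ^ (-(7 / 2) : ℝ))

/-- The Dirichlet form of the trace. -/
def ST_DIR : Prop :=
  ∀ (n m : ℕ) (Y : Type) [Fintype Y] [DecidableEq Y] (s ζ δ : ℝ) (r z : Y → ℝ)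
    (V Z : Matrix (Fin n) (Fin m) ℝ), MD s ζ δ r z → Function.Injective V.mulVec →
    ∑ η : Finset (Fin n × Y), W1 V δ r z η * ∑ x ∈ ηᶜ,
        z x.2 * (1 + r x.2 * hh V (tau δ r η) x.1) ^ (-(1 / 2) : ℝ)
          * dd (fun η => Matrix.trace (BB V Z (tau δ r η))) η x ^ 2
      ≤ 1341 / 10000 * ∑ η : Finset (Fin n × Y), W1 V δ r z η * sgm V Z (tau δ r η)

/-- The variance of the trace. -/
def ST_VAR : Prop :=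
  ∀ (n m : ℕ) (Y : Type) [Fintype Y] [DecidableEq Y] (s ζ δ : ℝ) (r z : Y → ℝ)
    (V Z : Matrix (Fin n) (Fin m) ℝ), MD s ζ δ r z → Function.Injective V.mulVec →
    EX V δ r z (fun y => Matrix.trace (BB V Z y)) = 0 →
    EX V δ r z (fun y => Matrix.trace (BB V Z y) ^ 2)
      ≤ 202 / 1000 * EX V δ r z (fun y => sgm V Z y)

/-! ## D. Three replicas -/

/-- Gaussian integrals. -/
def ST_GI3 : Prop :=
  ∀ (n m : ℕ) (V : Matrix (Fin n) (Fin m) ℝ), Function.Injective V.mulVec → ∀ y ∈ Og n,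
    0 < G0 m ∧
    Integrable (fun x : Fin m → ℝ => Real.exp (-∑ i, y i * (V.mulVec x i) ^ 2)) ∧
    ∫ x : Fin m → ℝ, Real.exp (-∑ i, y i * (V.mulVec x i) ^ 2)
      = G0 m * (qf V y) ^ (-(1 / 2) : ℝ) ∧
    Integrable (fun X : Fin 3 → Fin m → ℝ => Real.exp (-∑ i, y i * nq V X i)) ∧
    ∫ X : Fin 3 → Fin m → ℝ, Real.exp (-∑ i, y i * nq V X i)
      = G0 m ^ 3 * (qf V y) ^ (-(3 / 2) : ℝ)

/-- Uniqueness of the Laplace transform. -/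
def ST_LAPU : Prop :=
  ∀ (μ ν : Measure ℝ) [IsFiniteMeasure μ] [IsFiniteMeasure ν], μ (Set.Iio 0) = 0 →
    ν (Set.Iio 0) = 0 →
    (∀ k : ℕ, ∫ x, Real.exp (-(k * x)) ∂μ = ∫ x, Real.exp (-(k * x)) ∂ν) → μ = ν

/-- The law of `sqrt (nq V X i)` for the Gaussian measure. -/
def ST_GL3 : Prop :=
  ∀ (n m : ℕ) (V : Matrix (Fin n) (Fin m) ℝ), Function.Injective V.mulVec → ∀ y ∈ Og n,
    ∀ i : Fin n, V i ≠ 0 → ∀ φ : ℝ → ℝ≥0∞, Measurable φ →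
    ∫⁻ X : Fin 3 → Fin m → ℝ, φ (√(nq V X i))
        * ENNReal.ofReal (Real.exp (-∑ j, y j * nq V X j))
      = ENNReal.ofReal (G0 m ^ 3 * (qf V y) ^ (-(3 / 2) : ℝ))
        * ∫⁻ t in Set.Ioi (0 : ℝ), φ t * ENNReal.ofReal (4 / √Real.pi
          * (hh V y i) ^ (-(3 / 2) : ℝ) * t ^ 2 * Real.exp (-(t ^ 2 / hh V y i)))

/-- The law of `|v_i · x|` for the Gaussian measure. -/
def ST_GL1 : Prop :=
  ∀ (n m : ℕ) (V : Matrix (Fin n) (Fin m) ℝ), Function.Injective V.mulVec → ∀ y ∈ Og n,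
    ∀ i : Fin n, V i ≠ 0 → ∀ φ : ℝ → ℝ≥0∞, Measurable φ →
    ∫⁻ x : Fin m → ℝ, φ |V.mulVec x i|
        * ENNReal.ofReal (Real.exp (-∑ j, y j * (V.mulVec x j) ^ 2))
      = ENNReal.ofReal (G0 m * (qf V y) ^ (-(1 / 2) : ℝ))
        * ∫⁻ t in Set.Ioi (0 : ℝ), φ t * ENNReal.ofReal (2 / √Real.pi
          * (hh V y i) ^ (-(1 / 2) : ℝ) * Real.exp (-(t ^ 2 / hh V y i)))

/-- The representation of expectations by a probability measure. -/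
def ST_PM : Prop :=
  ∀ (n m : ℕ) (Y : Type) [Fintype Y] [DecidableEq Y] (s ζ δ : ℝ) (r z : Y → ℝ)
    (V : Matrix (Fin n) (Fin m) ℝ), MD s ζ δ r z → Function.Injective V.mulVec →
    ∃ P : Measure (Fin n → ℝ), IsProbabilityMeasure P ∧
      (∀ᵐ y ∂P, ∀ i, δ ≤ y i ∧ y i ≤ ld δ r z 0) ∧
      (∀ F : (Fin n → ℝ) → ℝ, ContinuousOn F (Og n) → MA (fun y => qf V y * F y) →
        ∫ y, F y ∂P = EX V δ r z F) ∧
      (∀ i, V i ≠ 0 → ∀ φ : ℝ → ℝ, ContinuousOn φ (Set.Ioi 0) →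
        ∫ y, φ (y i) ∂P = ∫ t in Set.Ioi (0 : ℝ), φ (ld δ r z (t ^ 2)) * p3 V δ r z i t) ∧
      (∀ i, V i = 0 → ∀ᵐ y ∂P, y i = ld δ r z 0)

/-- The marginal density is log-concave. -/
def ST_LCF : Prop :=
  ∀ (n m : ℕ) (Y : Type) [Fintype Y] [DecidableEq Y] (s ζ δ : ℝ) (r z : Y → ℝ)
    (V : Matrix (Fin n) (Fin m) ℝ), MD s ζ δ r z → Function.Injective V.mulVec →
    ∀ i, V i ≠ 0 → (∀ t, 0 < fd V δ r z i t) ∧ Continuous (fd V δ r z i) ∧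
      ∀ t u a b : ℝ, 0 < t → 0 < u → 0 < a → 0 < b → a + b = 1 →
        fd V δ r z i t ^ a * fd V δ r z i u ^ b ≤ fd V δ r z i (a * t + b * u)

/-- Berwald's inequality. -/
def ST_BER : Prop :=
  ∀ f : ℝ → ℝ, (∀ t, 0 < t → 0 < f t) → ContinuousOn f (Set.Ioi 0) →
    (∀ t u a b : ℝ, 0 < t → 0 < u → 0 < a → 0 < b → a + b = 1 →
      f t ^ a * f u ^ b ≤ f (a * t + b * u)) →
    (∀ q : ℝ, -1 < q → IntegrableOn (fun t => t ^ q * f t) (Set.Ioi 0)) →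
    ∀ a b c l : ℝ, -1 < a → a < c → 0 < l → l < 1 → b = (1 - l) * a + l * c →
    ((∫ t in Set.Ioi (0 : ℝ), t ^ a * f t) / Real.Gamma (a + 1)) ^ (1 - l)
        * ((∫ t in Set.Ioi (0 : ℝ), t ^ c * f t) / Real.Gamma (c + 1)) ^ l
      ≤ (∫ t in Set.Ioi (0 : ℝ), t ^ b * f t) / Real.Gamma (b + 1)

/-- The moments. -/
def ST_MOM : Prop :=
  ∀ (n m : ℕ) (Y : Type) [Fintype Y] [DecidableEq Y] (s ζ δ : ℝ) (r z : Y → ℝ)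
    (V : Matrix (Fin n) (Fin m) ℝ), MD s ζ δ r z → Function.Injective V.mulVec →
    ∀ i, V i ≠ 0 →
      (∀ t, 0 ≤ p3 V δ r z i t) ∧ Continuous (p3 V δ r z i) ∧
      (∀ q : ℝ, -1 < q → IntegrableOn (fun t => t ^ q * p3 V δ r z i t) (Set.Ioi 0)) ∧
      (∀ q : ℝ, -1 < q → 0 < mo V δ r z i q) ∧ mo V δ r z i 0 = 1 ∧
      mo V δ r z i (1 / 3) * mo V δ r z i (-(1 / 3))
        ≤ Real.Gamma (7 / 3) * Real.Gamma (5 / 3) ∧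
      mo V δ r z i (2 / 3)
        ≤ Real.Gamma (8 / 3) / Real.Gamma (7 / 3) ^ 2 * mo V δ r z i (1 / 3) ^ 2 ∧
      mo V δ r z i (-(2 / 3)) * mo V δ r z i (1 / 3) ^ 2
        ≤ Real.Gamma (4 / 3) * Real.Gamma (7 / 3) ^ 2

/-- Chebyshev's inequality for the moments. -/
def ST_CTR : Prop :=
  ∀ (p R : ℝ → ℝ) (a b : ℝ), (∀ t, 0 < t → 0 ≤ p t) → ContinuousOn p (Set.Ioi 0) →
    ContinuousOn R (Set.Ioi 0) → 0 < a → (∀ t, 0 < t → a ≤ R t ∧ R t ≤ b) →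
    (∀ t u, 0 < t → t ≤ u → R u ≤ R t) →
    (∀ t u, 0 < t → t ≤ u → t ^ (1 / 3 : ℝ) * R t ≤ u ^ (1 / 3 : ℝ) * R u) →
    (∀ q : ℝ, -1 < q → IntegrableOn (fun t => t ^ q * p t) (Set.Ioi 0)) →
    (∫ t in Set.Ioi (0 : ℝ), R t * p t) * (∫ t in Set.Ioi (0 : ℝ), (R t)⁻¹ * p t)
      ≤ (∫ t in Set.Ioi (0 : ℝ), t ^ (1 / 3 : ℝ) * p t)
        * (∫ t in Set.Ioi (0 : ℝ), t ^ (-(1 / 3) : ℝ) * p t) ∧
    (∫ t in Set.Ioi (0 : ℝ), ((R t)⁻¹) ^ 2 * p t)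
        * (∫ t in Set.Ioi (0 : ℝ), t ^ (1 / 3 : ℝ) * p t) ^ 2
      ≤ (∫ t in Set.Ioi (0 : ℝ), t ^ (2 / 3 : ℝ) * p t)
        * (∫ t in Set.Ioi (0 : ℝ), (R t)⁻¹ * p t) ^ 2 ∧
    (∫ t in Set.Ioi (0 : ℝ), (R t) ^ 2 * p t)
        * (∫ t in Set.Ioi (0 : ℝ), (R t)⁻¹ * p t) ^ 2
      ≤ (∫ t in Set.Ioi (0 : ℝ), t ^ (-(2 / 3) : ℝ) * p t)
        * (∫ t in Set.Ioi (0 : ℝ), t ^ (1 / 3 : ℝ) * p t) ^ 2

/-- Numerical values. -/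
def ST_GAM : Prop :=
  Real.Gamma (7 / 3) * Real.Gamma (5 / 3) ≤ 1076 / 1000 ∧
  Real.Gamma (8 / 3) / Real.Gamma (7 / 3) ^ 2 ≤ 1075 / 1000 ∧
  Real.Gamma (4 / 3) * Real.Gamma (7 / 3) ^ 2 ≤ 128 / 100

/-- The bounds on the marginals. -/
def ST_ROWB : Prop :=
  ∀ (n m : ℕ) (Y : Type) [Fintype Y] [DecidableEq Y] (s ζ δ : ℝ) (r z : Y → ℝ)
    (V : Matrix (Fin n) (Fin m) ℝ), MD s ζ δ r z → Function.Injective V.mulVec →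
    ∃ (P : Measure (Fin n → ℝ)) (ρ : Fin n → ℝ), RB P δ (ld δ r z 0) ρ ∧
      ∀ F : (Fin n → ℝ) → ℝ, ContinuousOn F (Og n) → MA (fun y => qf V y * F y) →
        ∫ y, F y ∂P = EX V δ r z F

/-! ## E. The abstract inequality -/

/-- Pointwise inequalities for the inverse. -/
def ST_ABP1 : Prop :=
  ∀ (n m : ℕ) (V : Matrix (Fin n) (Fin m) ℝ) (y ρ : Fin n → ℝ), y ∈ Og n → ρ ∈ Og n →
    TT V V ρ = 1 → Function.Injective V.mulVec ∧ ∀ w : Fin m → ℝ,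
    w ⬝ᵥ (TT V V y)⁻¹ *ᵥ w ≤ ∑ j, ρ j ^ 2 / y j * (V j ⬝ᵥ w) ^ 2 ∧
    ∀ c : ℝ, 2 * c * (w ⬝ᵥ w) - c ^ 2 * ∑ j, y j * (V j ⬝ᵥ w) ^ 2
      ≤ w ⬝ᵥ (TT V V y)⁻¹ *ᵥ w

/-- Pointwise inequalities for `BB`. -/
def ST_ABP2 : Prop :=
  ∀ (n m : ℕ) (V Z : Matrix (Fin n) (Fin m) ℝ) (y ρ : Fin n → ℝ), y ∈ Og n → ρ ∈ Og n →
    Function.Injective V.mulVec → TT V Z ρ = 0 →
    Matrix.trace (BB V Z y * BB V Z y)
      ≤ ∑ i, (y i - ρ i) ^ 2 / y i * (Z i ⬝ᵥ (TT V V y)⁻¹ *ᵥ Z i) ∧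
    ∀ U : Matrix (Fin m) (Fin m) ℝ, -2 * Matrix.trace (Uᵀ * BB V Z y)
      ≤ Matrix.trace (Uᵀ * (TT V V y)⁻¹ * U) + ∑ i, (y i - ρ i) ^ 2 / y i * (Z i ⬝ᵥ Z i)

/-- The pointwise lower bound for `sgm`. -/
def ST_ABP3 : Prop :=
  ∀ (n m : ℕ) (V Z : Matrix (Fin n) (Fin m) ℝ) (y ρ : Fin n → ℝ), y ∈ Og n → ρ ∈ Og n →
    Function.Injective V.mulVec → TT V Z ρ = 0 → ∀ c : ℝ,
    2 * c * (∑ i, ρ i * (Z i ⬝ᵥ (TT V V y)⁻¹ *ᵥ Z i))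
      - c ^ 2 * (∑ i, ρ i ^ 2 / y i * (Z i ⬝ᵥ (TT V V y)⁻¹ *ᵥ Z i)) ≤ sgm V Z y

/-- The expectations of the quadratic forms. -/
def ST_ABE : Prop :=
  ∀ (n m : ℕ) (P : Measure (Fin n → ℝ)) (a b : ℝ) (ρ : Fin n → ℝ)
    (V : Matrix (Fin n) (Fin m) ℝ), RB P a b ρ → TT V V ρ = 1 →
    (∀ i j, ∫ y, (y i)⁻¹ * (y j)⁻¹ ∂P ≤ 1075 / 1000 * ((ρ i)⁻¹ * (ρ j)⁻¹)) ∧
    (∀ i j, ∫ y, (y i - ρ i) ^ 2 / y i * (y j)⁻¹ ∂P ≤ 24804 / 100000 * (ρ i * (ρ j)⁻¹)) ∧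
    (∀ i, ∫ y, (y i - ρ i) ^ 2 / y i ∂P ≤ 76 / 1000 * ρ i) ∧
    (∀ w : Fin m → ℝ, ∫ y, w ⬝ᵥ (TT V V y)⁻¹ *ᵥ w ∂P ≤ w ⬝ᵥ w) ∧
    (∀ w : Fin m → ℝ, w ⬝ᵥ w ≤ 1076 / 1000 * ∫ y, w ⬝ᵥ (TT V V y)⁻¹ *ᵥ w ∂P) ∧
    (∀ (i : Fin n) (w : Fin m → ℝ),
      ∫ y, ρ i ^ 2 / y i * (w ⬝ᵥ (TT V V y)⁻¹ *ᵥ w) ∂P ≤ 1075 / 1000 * ρ i * (w ⬝ᵥ w)) ∧
    (∀ (i : Fin n) (w : Fin m → ℝ),
      ∫ y, (y i - ρ i) ^ 2 / y i * (w ⬝ᵥ (TT V V y)⁻¹ *ᵥ w) ∂P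
        ≤ 24804 / 100000 * ρ i * (w ⬝ᵥ w))

/-- The abstract inequality, normalised. -/
def ST_ABS0 : Prop :=
  ∀ (n m : ℕ) (P : Measure (Fin n → ℝ)) (a b : ℝ) (ρ : Fin n → ℝ)
    (V Z : Matrix (Fin n) (Fin m) ℝ), RB P a b ρ → TT V V ρ = 1 →
    (∀ i j, ∫ y, BB V Z y i j ∂P = 0) → Z ≠ 0 →
    0 < ∫ y, (Matrix.trace (BB V Z y) ^ 2 + sgm V Z y) ∂P ∧
    ∫ y, (Matrix.trace (BB V Z y * BB V Z y) - Matrix.trace (BB V Z y) ^ 2) ∂P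
      ≤ 41 / 100 * ∫ y, (Matrix.trace (BB V Z y) ^ 2 + sgm V Z y) ∂P

/-- The normalisation. -/
def ST_ABN : Prop :=
  ∀ (n m : ℕ) (V : Matrix (Fin n) (Fin m) ℝ) (ρ : Fin n → ℝ), ρ ∈ Og n →
    Function.Injective V.mulVec →
    ∃ C : Matrix (Fin m) (Fin m) ℝ, C.det ≠ 0 ∧ TT (V * C) (V * C) ρ = 1

/-- The abstract inequality. -/
def ST_ABS : Prop :=
  ∀ (n m : ℕ) (P : Measure (Fin n → ℝ)) (a b : ℝ) (ρ : Fin n → ℝ)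
    (V Z : Matrix (Fin n) (Fin m) ℝ), RB P a b ρ → Function.Injective V.mulVec →
    (∀ i j, ∫ y, BB V Z y i j ∂P = 0) → Z ≠ 0 →
    0 < ∫ y, (Matrix.trace (BB V Z y) ^ 2 + sgm V Z y) ∂P ∧
    ∫ y, (Matrix.trace (BB V Z y * BB V Z y) - Matrix.trace (BB V Z y) ^ 2) ∂P
      ≤ 41 / 100 * ∫ y, (Matrix.trace (BB V Z y) ^ 2 + sgm V Z y) ∂P

/-- The local inequality. -/
def ST_LOC : Prop :=
  ∀ (n m : ℕ) (Y : Type) [Fintype Y] [DecidableEq Y] (s ζ δ : ℝ) (r z : Y → ℝ)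
    (V Z : Matrix (Fin n) (Fin m) ℝ), MD s ζ δ r z → Function.Injective V.mulVec →
    (∀ a b, EX V δ r z (fun y => BB V Z y a b) = 0) → Z ≠ 0 → M2 V Z δ r z < 0

/-! ## F. Mountain pass -/

/-- Nested compact connected sets. -/
def ST_MP1 : Prop :=
  ∀ (E : Type) [NormedAddCommGroup E] (K : ℕ → Set E), (∀ k, IsCompact (K k)) →
    (∀ k, IsConnected (K k)) → Antitone K → IsCompact (⋂ k, K k) ∧ IsConnected (⋂ k, K k)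

/-- Deformation. -/
def ST_MP2 : Prop :=
  ∀ (E : Type) [NormedAddCommGroup E] [NormedSpace ℝ E] (G : E → ℝ), Continuous G →
    ∀ (K : Set E) (c : ℝ) (u v : E), IsCompact K → IsConnected K → (∀ w ∈ K, c ≤ G w) →
    (∀ w ∈ K, G w = c → SLP G w) → u ∈ K → v ∈ K → c < G u → c < G v →
    ∃ (K' : Set E) (c' : ℝ), IsCompact K' ∧ IsConnected K' ∧ u ∈ K' ∧ v ∈ K' ∧ c < c' ∧
      ∀ w ∈ K', c' ≤ G w

/-- If all critical points are strict local maxima there is only one. -/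
def ST_MPL : Prop :=
  ∀ (E : Type) [NormedAddCommGroup E] [NormedSpace ℝ E] (G : E → ℝ), Continuous G →
    (∀ w, 0 < G w) → (∀ c, 0 < c → IsCompact {w | c ≤ G w}) → (∀ w, SLM G w ∨ SLP G w) →
    ∀ w, SLM G w → ∀ v, G v ≤ G w

/-! ## G. The global maximum -/

/-- Derivatives. -/
def ST_DQ : Prop :=
  ∀ (n m : ℕ) (V Z : Matrix (Fin n) (Fin m) ℝ), Function.Injective V.mulVec → ∀ y ∈ Og n,
    HasDerivAt (fun t : ℝ => qf (V + t • Z) y) (2 * qf V y * Matrix.trace (BB V Z y)) 0 ∧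
    HasDerivAt (fun t : ℝ => Matrix.trace (BB (V + t • Z) Z y))
      (sgm V Z y - Matrix.trace (BB V Z y * BB V Z y)) 0

/-- Derivatives of `MS`. -/
def ST_DMS : Prop :=
  ∀ (n m : ℕ) (Y : Type) [Fintype Y] [DecidableEq Y] (s ζ δ : ℝ) (r z : Y → ℝ)
    (V Z : Matrix (Fin n) (Fin m) ℝ), MD s ζ δ r z → Function.Injective V.mulVec →
    HasDerivAt (fun t : ℝ => MS (V + t • Z) δ r z) (M1 V Z δ r z) 0 ∧
    HasDerivAt (fun t : ℝ => M1 (V + t • Z) Z δ r z) (M2 V Z δ r z) 0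

/-- Continuity in the matrices. -/
def ST_CTJ : Prop :=
  ∀ (n m : ℕ) (Y : Type) [Fintype Y] [DecidableEq Y] (s ζ δ : ℝ) (r z : Y → ℝ),
    MD s ζ δ r z →
    IsOpen {V : Matrix (Fin n) (Fin m) ℝ | Function.Injective V.mulVec} ∧
    ContinuousOn (fun V : Matrix (Fin n) (Fin m) ℝ => MS V δ r z)
      {V | Function.Injective V.mulVec} ∧
    ContinuousOn (fun p : Matrix (Fin n) (Fin m) ℝ × Matrix (Fin n) (Fin m) ℝ =>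
      M1 p.1 p.2 δ r z) {p | Function.Injective p.1.mulVec} ∧
    ContinuousOn (fun p : Matrix (Fin n) (Fin m) ℝ × Matrix (Fin n) (Fin m) ℝ =>
      M2 p.1 p.2 δ r z) {p | Function.Injective p.1.mulVec}

/-- The projection. -/
def ST_BPV : Prop :=
  ∀ (n m : ℕ) (Y : Type) [Fintype Y] [DecidableEq Y] (s ζ δ : ℝ) (r z : Y → ℝ)
    (V : Matrix (Fin n) (Fin m) ℝ), MD s ζ δ r z → Function.Injective V.mulVec →
    0 < MS V δ r z ∧ Bp V δ r z * V = 1 ∧ ∀ Z : Matrix (Fin n) (Fin m) ℝ,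
    (∀ a b, EX V δ r z (fun y => BB V Z y a b) = (Bp V δ r z * Z) a b) ∧
    M1 V Z δ r z = -(MS V δ r z * Matrix.trace (Bp V δ r z * Z)) ∧
    M2 V Z δ r z = MS V δ r z * EX V δ r z (fun y => Matrix.trace (BB V Z y) ^ 2
      + Matrix.trace (BB V Z y * BB V Z y) - sgm V Z y)

/-- The critical points on the affine space. -/
def ST_CRT : Prop :=
  ∀ (n m : ℕ) (Y : Type) [Fintype Y] [DecidableEq Y] (s ζ δ : ℝ) (r z : Y → ℝ)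
    (W : Matrix (Fin n) (Fin m) ℝ) (B : Matrix (Fin m) (Fin n) ℝ), MD s ζ δ r z →
    B * W = 1 → (∀ Z : Matrix (Fin n) (Fin m) ℝ, B * Z = 0 → M1 W Z δ r z = 0) →
    Bp W δ r z = B

/-- Noncritical points. -/
def ST_GSP : Prop :=
  ∀ (n m : ℕ) (Y : Type) [Fintype Y] [DecidableEq Y] (s ζ δ : ℝ) (r z : Y → ℝ)
    (V : Matrix (Fin n) (Fin m) ℝ) (B : Matrix (Fin m) (Fin n) ℝ), MD s ζ δ r z →
    B * V = 1 → ∀ w : KB B, (∃ e : KB B, M1 (V + Matrix.of (w : Fin n → Fin m → ℝ))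
      (Matrix.of (e : Fin n → Fin m → ℝ)) δ r z ≠ 0) → SLP (GB B V δ r z) w

/-- Critical points with negative second derivative. -/
def ST_GSM : Prop :=
  ∀ (n m : ℕ) (Y : Type) [Fintype Y] [DecidableEq Y] (s ζ δ : ℝ) (r z : Y → ℝ)
    (V : Matrix (Fin n) (Fin m) ℝ) (B : Matrix (Fin m) (Fin n) ℝ), MD s ζ δ r z →
    B * V = 1 → ∀ w : KB B, (∀ e : KB B, M1 (V + Matrix.of (w : Fin n → Fin m → ℝ))
      (Matrix.of (e : Fin n → Fin m → ℝ)) δ r z = 0) →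
    (∀ e : KB B, e ≠ 0 → M2 (V + Matrix.of (w : Fin n → Fin m → ℝ))
      (Matrix.of (e : Fin n → Fin m → ℝ)) δ r z < 0) → SLM (GB B V δ r z) w

/-- Compactness of the superlevel sets. -/
def ST_CMP : Prop :=
  ∀ (n m : ℕ) (Y : Type) [Fintype Y] [DecidableEq Y] (s ζ δ : ℝ) (r z : Y → ℝ)
    (V : Matrix (Fin n) (Fin m) ℝ) (B : Matrix (Fin m) (Fin n) ℝ), MD s ζ δ r z →
    B * V = 1 → Continuous (GB B V δ r z) ∧ (∀ w, 0 < GB B V δ r z w) ∧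
    ∀ c : ℝ, 0 < c → IsCompact {w | c ≤ GB B V δ r z w}

/-- The volume decreasing projection. -/
def ST_KER : Prop :=
  ∀ (n m : ℕ) (Y : Type) [Fintype Y] [DecidableEq Y] (s ζ δ : ℝ) (r z : Y → ℝ)
    (V : Matrix (Fin n) (Fin m) ℝ), MD s ζ δ r z → Function.Injective V.mulVec →
    ∃ B : Matrix (Fin m) (Fin n) ℝ, B * V = 1 ∧ ∀ W : Matrix (Fin n) (Fin m) ℝ,
      |(B * W).det| * MS W δ r z ≤ MS V δ r z

/-! ## H. Geometry and limits -/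

/-- The covering property. -/
def ST_CVB : Prop :=
  ∀ (m n K : ℕ) (F : Fin K → Face (m + 1) n) (θ : Fin K → ℤ), (∀ j, θ j ≠ 0) →
    IsCycle F θ → ∀ (B : Matrix (Fin (m + 1)) (Fin n) ℝ) (i : Fin K),
    B * (F i).mat = 1 →
      (volume (F i).dom).toReal
        ≤ ∑ j ∈ univ.erase i, |(B * (F j).mat).det| * (volume (F j).dom).toReal

/-- The face inequality for the finite model. -/
def ST_FIS : Prop :=
  ∀ (m n : ℕ) (Y : Type) [Fintype Y] [DecidableEq Y] (s ζ δ : ℝ) (r z : Y → ℝ),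
    MD s ζ δ r z → FI m n (lam δ r z)

/-- Approximation of `Lr` by finite models with small activities. -/
def ST_GLZ : Prop :=
  ∀ (ρ ε c ζ : ℝ), 1 < ρ → 0 < ε → ε ≤ 1 / 2 → 0 < c → 0 < ζ →
    ∃ (N M : ℕ → ℕ) (a b : ℝ), 0 < a ∧ (∀ k, 1 ≤ M k) ∧
      (∀ k y, gz ρ ε c (N k) (M k) y ≤ ζ) ∧
      (∀ k, ContinuousOn (lam (gd ρ ε c (N k)) (gr ρ (N k) (M k)) (gz ρ ε c (N k) (M k)))
        (Set.Ici 0)) ∧
      (∀ k u, 0 ≤ u → a * Real.sqrt u - b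
        ≤ lam (gd ρ ε c (N k)) (gr ρ (N k) (M k)) (gz ρ ε c (N k) (M k)) u) ∧
      ∀ u, 0 ≤ u → Tendsto (fun k =>
        lam (gd ρ ε c (N k)) (gr ρ (N k) (M k)) (gz ρ ε c (N k) (M k)) u)
        atTop (𝓝 (Lr ρ ε c u))

/-- The limit `ρ → 1`. -/
def ST_RLZ : Prop :=
  ∀ ε θ : ℝ, 0 < ε → ε ≤ 1 / 2 → 0 < θ →
    ∃ (ρ c : ℕ → ℝ) (a b : ℝ), 0 < a ∧ (∀ k, 1 < ρ k) ∧ (∀ k, ρ k ≤ 1 + θ) ∧
      (∀ k, 0 < c k) ∧ (∀ k, ContinuousOn (Lr (ρ k) ε (c k)) (Set.Ici 0)) ∧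
      (∀ k u, 0 ≤ u → a * Real.sqrt u - b ≤ Lr (ρ k) ε (c k) u) ∧
      ∀ u, 0 ≤ u → Tendsto (fun k => Lr (ρ k) ε (c k) u) atTop (𝓝 (u ^ (1 - ε)))

/-- Positivity of `MM`. -/
def ST_MMP : Prop :=
  ∀ (n m : ℕ) (Λ : ℝ → ℝ) (a b : ℝ) (V : Matrix (Fin n) (Fin m) ℝ), 0 < a →
    ContinuousOn Λ (Set.Ici 0) → (∀ u, 0 ≤ u → a * Real.sqrt u - b ≤ Λ u) →
    Function.Injective V.mulVec → 0 < MM Λ V

/-- The face inequality for the stable exponent. -/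
def ST_FST : Prop :=
  ∀ (m n : ℕ) (p : ℝ), 5 / 3 ≤ p → p < 2 → FI m n (fun u => u ^ (p / 2))

/-- The main theorem. -/
def ST_MAIN : Prop :=
  ∀ (m n K : ℕ) (p : ℝ), 5 / 3 ≤ p → p < 2 →
    ∀ [Fact (1 ≤ ENNReal.ofReal p)] (F : Fin K → Face (m + 1) n) (θ : Fin K → ℤ),
    (∀ j, θ j ≠ 0) → IsCycle F θ → ∀ i,
      μH[(m : ℝ) + 1] ((F i).carrier (ENNReal.ofReal p))
        ≤ ∑ j ∈ univ.erase i, μH[(m : ℝ) + 1] ((F j).carrier (ENNReal.ofReal p))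

end Pool.Agent.Helper44.GH
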